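import Pool.Agent.helper80.T1.SpecO
import Pool.Agent.helper95.HF.OPB
import Pool.Agent.helper62.HF.AllV

/-!
# MP_07c750, project T1, row OPE: the effective operator bound (adaptation of OPB of helper95)
-/

set_option autoImplicit false

open scoped MatrixGroups ContDiff Topology UpperHalfPlane ComplexConjugate
open UpperHalfPlane MeasureTheory Filter Set

namespace Pool.Agent.T1

open Pool.Agent.RS Pool.Agent.MS Pool.Agent.HV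

theorem OPE_mono {J J' : ℕ} {M M' : ℝ} {β : ℝ → ℝ} (h : SBM J M β) (hJ : J' ≤ J) (hM : M ≤ M') : SBM J' M' β :=
  ⟨h.sb, fun j hj x => (h.bd j (hj.trans hJ) x).trans hM⟩

theorem OPE_n1 (ρ K4 C M' J : ℝ) (hρ : 1 ≤ ρ) (hK4 : 1 ≤ K4) (_hC : 1 ≤ C) (hM0 : 0 ≤ M') (hM' : M' ≤ C * ρ ^ 4)
    (_hJ0 : 0 ≤ J) (hJ : J ≤ ρ) (hL : 3 * K4 * C ^ 4 ≤ ρ) : (2 * J + 1) * (K4 * M' ^ 4 * (ρ ^ 50)⁻¹) ≤ 1 := by
  have hρ0 : 0 < ρ := by linarith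
  have h1 : 2 * J + 1 ≤ 3 * ρ := by linarith
  have h2 : M' ^ 4 ≤ (C * ρ ^ 4) ^ 4 := pow_le_pow_left₀ hM0 hM' 4
  have h3 : K4 * M' ^ 4 * (ρ ^ 50)⁻¹ ≤ K4 * (C * ρ ^ 4) ^ 4 * (ρ ^ 50)⁻¹ := by
    refine mul_le_mul_of_nonneg_right (mul_le_mul_of_nonneg_left h2 (by linarith)) (by positivity)
  have h4 : (2 * J + 1) * (K4 * M' ^ 4 * (ρ ^ 50)⁻¹) ≤ 3 * ρ * (K4 * (C * ρ ^ 4) ^ 4 * (ρ ^ 50)⁻¹) :=
    mul_le_mul h1 h3 (by positivity) (by positivity)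
  have h5 : 3 * ρ * (K4 * (C * ρ ^ 4) ^ 4 * (ρ ^ 50)⁻¹) = 3 * K4 * C ^ 4 * (ρ ^ 17 * (ρ ^ 50)⁻¹) := by ring
  have h6 : 3 * K4 * C ^ 4 * (ρ ^ 17 * (ρ ^ 50)⁻¹) ≤ ρ * (ρ ^ 17 * (ρ ^ 50)⁻¹) :=
    mul_le_mul_of_nonneg_right hL (by positivity)
  have h7 : ρ * (ρ ^ 17 * (ρ ^ 50)⁻¹) ≤ 1 := by
    have h8 : ρ * (ρ ^ 17 * (ρ ^ 50)⁻¹) = ρ ^ 18 / ρ ^ 50 := by
      rw [div_eq_mul_inv]
      ring
    rw [h8, div_le_one (by positivity)]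
    exact pow_le_pow_right₀ hρ (by norm_num)
  rw [h5] at h4
  exact (h4.trans h6).trans h7

theorem OPE_n3 (ρ r ε C2 K5 J : ℝ) (hρ : 1 ≤ ρ) (hr : r = ρ ^ 400) (hε : 0 < ε) (hερ : 1 / ε ≤ ρ) (hK5 : 1 ≤ K5)
    (hJ0 : 0 ≤ J) (hJ : J ≤ ρ) (hL : 3 * K5 * C2 ^ 2 ≤ ρ) :
    r * ((Real.pi / (4 * ε * r)) ^ 2 * ((2 * J + 1) * (K5 * (C2 / ε) ^ 2))) ≤ 1 := by
  have hρ0 : 0 < ρ := by linarith
  have hr0 : 0 < r := by rw [hr]; positivity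
  have h1 : r * ((Real.pi / (4 * ε * r)) ^ 2 * ((2 * J + 1) * (K5 * (C2 / ε) ^ 2))) =
      (Real.pi ^ 2 / 16) * (1 / ε) ^ 4 * ((2 * J + 1) * (K5 * C2 ^ 2)) / r := by
    field_simp
    ring
  rw [h1, div_le_one hr0]
  have hpi : Real.pi ^ 2 / 16 ≤ 1 := by
    have := Real.pi_le_four
    have h0 := Real.pi_pos
    rw [div_le_one (by norm_num)]
    nlinarith
  have h2 : (1 / ε) ^ 4 ≤ ρ ^ 4 := pow_le_pow_left₀ (by positivity) hερ 4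
  have h3 : 2 * J + 1 ≤ 3 * ρ := by linarith
  calc (Real.pi ^ 2 / 16) * (1 / ε) ^ 4 * ((2 * J + 1) * (K5 * C2 ^ 2))
      ≤ 1 * ρ ^ 4 * (3 * ρ * (K5 * C2 ^ 2)) := by
        refine mul_le_mul (mul_le_mul hpi h2 (by positivity) (by norm_num)) ?_ (by positivity) (by positivity)
        exact mul_le_mul_of_nonneg_right h3 (by positivity)
    _ = 3 * K5 * C2 ^ 2 * ρ ^ 5 := by ring
    _ ≤ ρ * ρ ^ 5 := mul_le_mul_of_nonneg_right hL (by positivity)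
    _ = ρ ^ 6 := by ring
    _ ≤ ρ ^ 400 := pow_le_pow_right₀ hρ (by norm_num)
    _ = r := hr.symm

theorem OPE_n4 (ρ r δ C K6 M0 M' X J : ℝ) (hρ : 1 ≤ ρ) (hr : r = ρ ^ 400) (hδ : δ = (ρ ^ 100)⁻¹) (hK6 : 1 ≤ K6) (hC : 1 ≤ C)
    (hM0 : 1 ≤ M0) (hM'0 : 0 ≤ M') (hM' : M' ≤ C * ρ ^ 4) (hX0 : 0 ≤ X) (hX : X ≤ ρ ^ 3)
    (hJ0 : 0 ≤ J) (hJ : J ≤ ρ) (hL : 18 * K6 * M0 ^ 4 * C ^ 12 ≤ ρ) :
    2 * (2 * J + 1) * ((2 * J + 1) * (K6 * M0 ^ 4 * M' ^ 12 * X / (r ^ 2 * δ ^ 4))) ≤ ρ⁻¹ := by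
  have hρ0 : 0 < ρ := by linarith
  have h1 : r ^ 2 * δ ^ 4 = ρ ^ 400 := by
    rw [hr, hδ]
    have h2 : (ρ ^ 400) ^ 2 * ((ρ ^ 100)⁻¹) ^ 4 = (ρ ^ 400 * ρ ^ 400) * (ρ ^ 400)⁻¹ := by
      rw [inv_pow, ← pow_mul, ← pow_mul, ← pow_add]
    rw [h2]
    field_simp
  rw [h1]
  have h3 : 2 * J + 1 ≤ 3 * ρ := by linarith
  have h4 : M' ^ 12 ≤ (C * ρ ^ 4) ^ 12 := pow_le_pow_left₀ hM'0 hM' 12
  have h5 : K6 * M0 ^ 4 * M' ^ 12 * X / ρ ^ 400 ≤ K6 * M0 ^ 4 * (C * ρ ^ 4) ^ 12 * ρ ^ 3 / ρ ^ 400 := by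
    refine div_le_div_of_nonneg_right ?_ (by positivity)
    exact mul_le_mul (mul_le_mul_of_nonneg_left h4 (by positivity)) hX hX0 (by positivity)
  have h6 : (2 * J + 1) * (K6 * M0 ^ 4 * M' ^ 12 * X / ρ ^ 400) ≤ 3 * ρ * (K6 * M0 ^ 4 * (C * ρ ^ 4) ^ 12 * ρ ^ 3 / ρ ^ 400) :=
    mul_le_mul h3 h5 (by positivity) (by positivity)
  have h7 : 2 * (2 * J + 1) * ((2 * J + 1) * (K6 * M0 ^ 4 * M' ^ 12 * X / ρ ^ 400)) ≤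
      2 * (3 * ρ) * (3 * ρ * (K6 * M0 ^ 4 * (C * ρ ^ 4) ^ 12 * ρ ^ 3 / ρ ^ 400)) :=
    mul_le_mul (by linarith) h6 (by positivity) (by positivity)
  refine h7.trans ?_
  have h8 : 2 * (3 * ρ) * (3 * ρ * (K6 * M0 ^ 4 * (C * ρ ^ 4) ^ 12 * ρ ^ 3 / ρ ^ 400)) =
      18 * K6 * M0 ^ 4 * C ^ 12 * (ρ ^ 53 / ρ ^ 400) := by ring
  rw [h8]
  have h9 : 18 * K6 * M0 ^ 4 * C ^ 12 * (ρ ^ 53 / ρ ^ 400) ≤ ρ * (ρ ^ 53 / ρ ^ 400) :=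
    mul_le_mul_of_nonneg_right hL (by positivity)
  refine h9.trans ?_
  rw [← mul_div_assoc, div_le_iff₀ (by positivity)]
  have h10 : ρ⁻¹ * ρ ^ 400 = ρ ^ 399 := by
    field_simp
  rw [h10]
  calc ρ * ρ ^ 53 = ρ ^ 54 := by ring
    _ ≤ ρ ^ 399 := pow_le_pow_right₀ hρ (by norm_num)

/-- **Row OPE**. -/
theorem OPE_main (hPUX : PUX_stmt) (hCLL : CLL_stmt) (hDVF : DVF_stmt) (hOPL : OPL_stmt) (hSYB : MS.SYB_stmt) (hSTB : MS.STB_stmt)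
    (hCV1 : RS.CV1_stmt) (hFL0 : RS.FL0_stmt) (hGFD : RS.GFD_stmt) (hGBD : RS.GBD_stmt) (hGLC : RS.GLC_stmt)
    (hOCB : OCB_stmt) (hOEJ : OEJ_stmt) (hOTA : OTA_stmt) (hQTR : QTR_stmt) (hQFR : QFR_stmt) (hQST : QST_stmt)
    (hQFA : QFA_stmt) : OPE_stmt := by
  intro β α hβ hα
  obtain ⟨χ, hχ⟩ := hPUX
  have hβS : SB (1 / 4) β := hβ.1
  have hαS : SB (1 / 4) α := hα.1
  obtain ⟨C1, hC1, hCB⟩ := hOCB χ β hχ hβS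
  obtain ⟨C2, hC2, hEJ⟩ := hOEJ χ β α hχ hβS hαS
  obtain ⟨M1, hM1, hM1β⟩ := hQST.2.2 4 β hβS
  obtain ⟨M2, hM2, hM2α⟩ := hQST.2.2 4 α hαS
  obtain ⟨M0, hM0β, hM0α, hM01⟩ : ∃ M0 : ℝ, SBM 4 M0 β ∧ SBM 4 M0 α ∧ 1 ≤ M0 :=
    ⟨max M1 M2, OPE_mono hM1β le_rfl (le_max_left _ _), OPE_mono hM2α le_rfl (le_max_right _ _), hM1.trans (le_max_left _ _)⟩
  obtain ⟨K3, κ3, hK3, hκ3, hκ31, hFA⟩ := hQFA M0
  obtain ⟨K4, hK4, hFR⟩ := hQFR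
  obtain ⟨K5, hK5, hTR⟩ := hQTR
  obtain ⟨K6, hK6, hTA⟩ := hOTA
  obtain ⟨C, hCC1, hCM0, hC1'⟩ : ∃ C : ℝ, C1 ≤ C ∧ M0 ≤ C ∧ 1 ≤ C := ⟨max C1 M0, le_max_left _ _, le_max_right _ _, hC1.trans (le_max_left _ _)⟩
  obtain ⟨κ, hκ0, hκκ3, hκ4⟩ : ∃ κ : ℝ, 0 < κ ∧ κ ≤ κ3 ∧ κ ≤ 1 / 400 :=
    ⟨min κ3 (1 / 400), lt_min hκ3 (by norm_num), min_le_left _ _, min_le_right _ _⟩
  obtain ⟨L, hL1, hL2, hL3, hL4⟩ : ∃ L : ℝ, 1 ≤ L ∧ 3 * K4 * C ^ 4 ≤ L ∧ 3 * K5 * C2 ^ 2 ≤ L ∧ 18 * K6 * M0 ^ 4 * C ^ 12 ≤ L := by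
    have p1 : 0 ≤ 3 * K4 * C ^ 4 := by positivity
    have p2 : 0 ≤ 3 * K5 * C2 ^ 2 := by positivity
    have p3 : 0 ≤ 18 * K6 * M0 ^ 4 * C ^ 12 := by positivity
    exact ⟨1 + 3 * K4 * C ^ 4 + 3 * K5 * C2 ^ 2 + 18 * K6 * M0 ^ 4 * C ^ 12, by linarith, by linarith, by linarith, by linarith⟩
  have hLp : 0 ≤ L ^ 400 := by positivity
  have hTp : (0 : ℝ) ≤ (10 : ℝ) ^ (1 / κ) := by positivity
  refine ⟨K3 + K4 + (10 : ℝ) ^ (1 / κ) + L ^ 400, κ, by linarith, hκ0, by linarith, ?_⟩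
  intro Γ F r T ε Q J0 B1 D Dp hΓ hF hKr hT hTκ hεκ hε1 hJ0 hJκ hQ hB1 hDp hB1i hDpi hloc hleaf s hsm hsb hsi hsD
  have hr1 : 1 ≤ r := by linarith
  have hrp : 0 < r := by linarith
  have hK3r : K3 ≤ r := by linarith
  have hK4r : K4 ≤ r := by linarith
  have hTr : (10 : ℝ) ^ (1 / κ) ≤ r := by linarith
  have hLr : L ^ 400 ≤ r := by linarith
  -- the small power of `r`
  obtain ⟨ρ, hρdef⟩ : ∃ ρ : ℝ, ρ = r ^ (1 / 400 : ℝ) := ⟨_, rfl⟩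
  have hρ1 : 1 ≤ ρ := by
    rw [hρdef]
    exact Real.one_le_rpow hr1 (by norm_num)
  have hρ0 : 0 < ρ := by linarith
  have hpw : ∀ n : ℕ, ρ ^ n = r ^ ((n : ℝ) / 400) := by
    intro n
    rw [hρdef, ← Real.rpow_natCast, ← Real.rpow_mul hrp.le]
    congr 1
    ring
  have hρr : r = ρ ^ 400 := by
    rw [hpw 400]
    norm_num
  have hρ8 : r ^ (-(1 / 8) : ℝ) = (ρ ^ 50)⁻¹ := by
    rw [hpw 50, Real.rpow_neg hrp.le]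
    norm_num
  have hρ4 : r ^ (-(1 / 4) : ℝ) = (ρ ^ 100)⁻¹ := by
    rw [hpw 100, Real.rpow_neg hrp.le]
    norm_num
  have hρ2 : r ^ (-(1 / 2) : ℝ) = (ρ ^ 200)⁻¹ := by
    rw [hpw 200, Real.rpow_neg hrp.le]
    norm_num
  have hLρ : L ≤ ρ := by
    have h1 : L ^ 400 ≤ ρ ^ 400 := by
      rw [← hρr]
      exact hLr
    exact le_of_pow_le_pow_left₀ (by norm_num) hρ0.le h1
  have hκρ : r ^ κ ≤ ρ := by
    rw [hρdef]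
    exact Real.rpow_le_rpow_of_exponent_le hr1 hκ4
  have hκp : 0 < r ^ κ := Real.rpow_pos_of_pos hrp κ
  have hε : 0 < ε := lt_of_lt_of_le (Real.rpow_pos_of_pos hrp _) hεκ
  have hερ : 1 / ε ≤ ρ := by
    refine le_trans ?_ hκρ
    rw [Real.rpow_neg hrp.le] at hεκ
    rw [div_le_iff₀ hε]
    calc (1 : ℝ) = r ^ κ * (r ^ κ)⁻¹ := by field_simp
      _ ≤ r ^ κ * ε := mul_le_mul_of_nonneg_left hεκ hκp.le
  have hηρ : ρ⁻¹ ≤ r ^ (-κ) := by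
    rw [Real.rpow_neg hrp.le]
    exact inv_anti₀ hκp hκρ
  have hη : 0 < r ^ (-κ) := Real.rpow_pos_of_pos hrp _
  have hJρ : (J0 : ℝ) ≤ ρ := hJκ.trans hκρ
  have hJ00 : (0 : ℝ) ≤ (J0 : ℝ) := Nat.cast_nonneg _
  have hTρ : Real.exp T ≤ ρ := by
    have h1 : T ≤ Real.log ρ := by
      rw [hρdef, Real.log_rpow hrp]
      refine hTκ.trans (mul_le_mul_of_nonneg_right hκ4 (Real.log_nonneg hr1))
    calc Real.exp T ≤ Real.exp (Real.log ρ) := Real.exp_le_exp.2 h1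
      _ = ρ := Real.exp_log hρ0
  have hT3 : Real.exp (3 * T) ≤ ρ ^ 3 := by
    have h1 : Real.exp (3 * T) = Real.exp T ^ 3 := by
      rw [← Real.exp_nat_mul]
      norm_num
    rw [h1]
    exact pow_le_pow_left₀ (Real.exp_pos T).le hTρ 3
  have hT10 : 1 + r ^ (-κ3) ≤ 11 / 10 := by
    have h1 : (10 : ℝ) ≤ r ^ κ := by
      calc (10 : ℝ) = ((10 : ℝ) ^ (1 / κ)) ^ κ := by
            rw [← Real.rpow_mul (by norm_num), one_div, inv_mul_cancel₀ hκ0.ne', Real.rpow_one]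
        _ ≤ r ^ κ := Real.rpow_le_rpow hTp hTr hκ0.le
    have h2 : (10 : ℝ) ≤ r ^ κ3 := h1.trans (Real.rpow_le_rpow_of_exponent_le hr1 hκκ3)
    have h3 : r ^ (-κ3) ≤ 10⁻¹ := by
      rw [Real.rpow_neg hrp.le]
      exact inv_anti₀ (by norm_num) h2
    linarith
  -- the profiles of the cells
  obtain ⟨M', hM'def⟩ : ∃ M' : ℝ, M' = C / ε ^ 4 := ⟨_, rfl⟩
  have hCM' : C ≤ M' := by
    rw [hM'def, le_div_iff₀ (by positivity)]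
    have h1 : ε ^ 4 ≤ 1 := pow_le_one₀ hε.le hε1
    nlinarith
  have hM'1 : 1 ≤ M' := hC1'.trans hCM'
  have hM'0 : 0 ≤ M' := by linarith
  have hM'ρ : M' ≤ C * ρ ^ 4 := by
    have h1 : (1 / ε) ^ 4 ≤ ρ ^ 4 := pow_le_pow_left₀ (by positivity) hερ 4
    calc M' = C * (1 / ε) ^ 4 := by
          rw [hM'def]
          field_simp
      _ ≤ C * ρ ^ 4 := mul_le_mul_of_nonneg_left h1 (by linarith)
  have hCBj : ∀ j : ℤ, SBM 4 M' (bj χ β ε j) ∧ SBM 4 M' (b1 χ β ε j) := by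
    intro j
    obtain ⟨h1, h2⟩ := hCB ε j hε hε1
    have h3 : C1 / ε ^ 4 ≤ M' := by
      rw [hM'def]
      exact div_le_div_of_nonneg_right hCC1 (by positivity)
    exact ⟨OPE_mono h1 le_rfl h3, OPE_mono h2 le_rfl h3⟩
  have hαM' : SBM 4 M' α := OPE_mono hM0α le_rfl (hCM0.trans hCM')
  have hlc : Continuous lM := hGLC.2.2.2.2.2.1
  have hnc : Continuous nM := hGLC.2.2.2.2.1
  obtain ⟨hCb, hCs, hCi, -⟩ := hCLL χ β ε hχ hβS hε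
  set J : Finset ℤ := Finset.Icc (-(J0 : ℤ)) J0 with hJ
  obtain ⟨hs1, hs2⟩ := hCi J0
  rw [hβ.2] at hs1 hs2
  have hM0 : (0 : ℝ) < 2 * (J0 : ℝ) + 1 := by positivity
  have hcard : (J.card : ℝ) = 2 * (J0 : ℝ) + 1 := by
    rw [hJ, Int.card_Icc]
    have : ((J0 : ℤ) + 1 - -(J0 : ℤ)).toNat = 2 * J0 + 1 := by omega
    rw [this]; push_cast; ring
  obtain ⟨η1, hη1⟩ : ∃ η1 : ℝ, η1 = K4 * M' ^ 4 * (ρ ^ 50)⁻¹ := ⟨_, rfl⟩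
  -- the narrow profile
  have hstB : BB (Real.exp (-T) * (1 / 4)) (st (-T) β) := hSTB.2.2.2.1 (1 / 4) (-T) β hβ
  have hexpT : Real.exp (-T) * (1 / 4) ≤ 1 / 4 := by
    have : Real.exp (-T) ≤ 1 := Real.exp_le_one_iff.2 (by linarith)
    linarith
  have hstB4 : BB (1 / 4) (st (-T) β) := (hSTB.2.2.2.2.1 _ _ (st (-T) β) hexpT).2.2 hstB
  have hej : ∀ j : ℤ, TB (1 / 4) (ej χ β α ε j) := fun j =>
    (hDVF χ β α ε 1 j (fun _ => 0) 1 hχ hβS hαS hε one_pos continuous_const).1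
  obtain ⟨δ1, hδ1def⟩ : ∃ δ1 : ℝ, δ1 = r ^ (-(1 / 4) : ℝ) := ⟨_, rfl⟩
  have hδ1 : 0 < δ1 := by
    rw [hδ1def]
    exact Real.rpow_pos_of_pos hrp _
  obtain ⟨Ct, hCt⟩ : ∃ Ct : ℝ, Ct = K6 * M0 ^ 4 * M' ^ 12 * Real.exp (3 * T) / (r ^ 2 * δ1 ^ 4) := ⟨_, rfl⟩
  set l : ℝ := Real.pi / (4 * ε * r) with hl
  have hlp : 0 < l := by positivity
  have hll0 : l ≤ r ^ (-(1 / 2) : ℝ) := by
    rw [hρ2, hl]
    have h1 : Real.pi / (4 * ε * r) = Real.pi / 4 * (1 / ε) * r⁻¹ := by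
      field_simp
    have h2 : Real.pi / 4 ≤ 1 := by
      rw [div_le_one (by norm_num)]
      exact Real.pi_le_four
    have h3 : Real.pi / 4 * (1 / ε) * r⁻¹ ≤ 1 * ρ * r⁻¹ := by
      refine mul_le_mul_of_nonneg_right (mul_le_mul h2 hερ (by positivity) (by norm_num)) (by positivity)
    rw [h1]
    refine h3.trans ?_
    rw [hρr, one_mul, ← div_eq_mul_inv, div_le_iff₀ (by positivity)]
    have h4 : (ρ ^ 200)⁻¹ * ρ ^ 400 = ρ ^ 200 := by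
      rw [show ρ ^ 400 = ρ ^ 200 * ρ ^ 200 by ring]
      field_simp
    rw [h4]
    calc ρ = ρ ^ 1 := (pow_one ρ).symm
      _ ≤ ρ ^ 200 := pow_le_pow_right₀ hρ1 (by norm_num)
  -- the function `ψ`
  set c' : ℍ → ℂ := pc (st (-T) β) α with hc'
  have hTBc' : TB (1 / 4) c' := (hCV1.2.2 (1 / 4) α (st (-T) β) hαS hstB4.1).1
  obtain ⟨hk1, hk2⟩ := hFL0.2.1 (1 / 4) r c' hTBc'
  have hk3 : Continuous (pk r c') := ((QU.CA1 ℂ).1 _).1 ((QU.CA1 ℂ).2.1 _ 0 _ bot_le hk1)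
  have hframe : ∀ u : ℍ → ℂ, InvC Γ u → iR F (fun g => ‖Wf (pk r c') u g‖ ^ 2) ≤ 11 / 10 / r * nn F u := by
    intro u hu
    have h := (hFA β α hM0β hM0α hβ hα Γ F r T hΓ hF hK3r hT (hTκ.trans (mul_le_mul_of_nonneg_right hκκ3 (Real.log_nonneg hr1)))).1 u hu
    have hnu : 0 ≤ nn F u := integral_nonneg (fun g => by positivity)
    have h2 : qn F c' r u ≤ 11 / 10 / r * nn F u := by
      rw [div_mul_eq_mul_div, le_div_iff₀ hrp]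
      have h3 : (1 + r ^ (-κ3)) * nn F u ≤ 11 / 10 * nn F u := mul_le_mul_of_nonneg_right hT10 hnu
      linarith
    exact h2
  set ψ : ℍ → ℂ := sy Γ F (fun z => conj (pk r c' z)) s with hψ
  obtain ⟨hψI, hψn⟩ := hSYB Γ F (pk r c') (11 / 10 / r) hΓ hF hk3 hk2 (by positivity) hframe s hsm hsb
  rw [← hψ] at hψI hψn
  have hV0 : 0 ≤ iR F (fun g => ‖s g‖ ^ 2) := integral_nonneg (fun g => by positivity)
  have hn0 : 0 ≤ nn F ψ := integral_nonneg (fun g => by positivity)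
  have hrn : r * nn F ψ ≤ 11 / 10 * iR F (fun g => ‖s g‖ ^ 2) := by
    rw [div_mul_eq_mul_div, le_div_iff₀ hrp] at hψn
    linarith
  -- the functions on the group
  have hTBc : TB (1 / 4) (pc β α) := (hCV1.2.2 (1 / 4) α β hαS hβS).1
  have hTBb : ∀ j, TB (1 / 4) (pc (bj χ β ε j) α) := fun j => (hCV1.2.2 (1 / 4) α _ hαS (hCb j).1).1
  have hTB1 : ∀ j, TB (1 / 4) (pc (b1 χ β ε j) α) := fun j => (hCV1.2.2 (1 / 4) α _ hαS (hCb j).2).1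
  set B : Set SL(2, ℝ) := {g | g * aM (Real.log (4 * ε * r / Real.pi)) ∈ B1} with hB
  have hBm : MeasurableSet B := (continuous_mul_const _).measurable hB1
  have hBi : ∀ (γ : Γ) (g : SL(2, ℝ)), (γ : SL(2, ℝ)) * g ∈ B ↔ g ∈ B := by
    intro γ g
    rw [hB, mem_ofPred_eq, mem_ofPred_eq, mul_assoc, hB1i]
  have hDj : ∀ j : ℤ, MeasurableSet {g' : SL(2, ℝ) | g' * nM (j * ε) ∉ Dp} := fun j =>
    ((continuous_mul_const _).measurable hDp).compl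
  have hind : ∀ (E : Set SL(2, ℝ)) (w : SL(2, ℝ) → ℝ), MeasurableSet E → (∀ (γ : Γ) (g : SL(2, ℝ)), (γ : SL(2, ℝ)) * g ∈ E ↔ g ∈ E) →
      OPB_G Γ w → OPB_G Γ (E.indicator w) := by
    intro E w hE hEi hw
    obtain ⟨h1, ⟨m, h2⟩, h3⟩ := hw
    refine ⟨h1.indicator hE, ⟨m, fun g => (norm_indicator_le_norm_self _ _).trans (h2 g)⟩, fun γ g => ?_⟩
    by_cases h : g ∈ E
    · rw [indicator_of_mem h, indicator_of_mem ((hEi γ g).2 h), h3]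
    · rw [indicator_of_notMem h, indicator_of_notMem (fun h' => h ((hEi γ g).1 h'))]
  have hDji : ∀ (j : ℤ) (γ : Γ) (g : SL(2, ℝ)), (γ : SL(2, ℝ)) * g ∈ {g' : SL(2, ℝ) | g' * nM (j * ε) ∉ Dp} ↔
      g ∈ {g' : SL(2, ℝ) | g' * nM (j * ε) ∉ Dp} := by
    intro j γ g
    rw [mem_ofPred_eq, mem_ofPred_eq, mul_assoc, hDpi]
  have gA : OPB_G Γ (B.indicator (fun g => ‖Wf (pk r (pc β α)) ψ g‖ ^ 2)) :=
    hind B _ hBm hBi (OPB_Wf hFL0 hGBD Γ hΓ _ r ψ hTBc hψI)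
  have gP : ∀ j : ℤ, OPB_G Γ (fun g => ‖Wf (pk r (pc (bj χ β ε j) α)) ψ g‖ ^ 2) := fun j =>
    OPB_Wf hFL0 hGBD Γ hΓ _ r ψ (hTBb j) hψI
  have gR1 : ∀ j : ℤ, OPB_G Γ (fun g => ‖Wf (pk r (pc (b1 χ β ε j) α)) ψ g‖ ^ 2) := fun j =>
    OPB_Wf hFL0 hGBD Γ hΓ _ r ψ (hTB1 j) hψI
  have gR2 : ∀ j : ℤ, OPB_G Γ (fun g => ‖Wf (pk r (ej χ β α ε j)) ψ g‖ ^ 2) := fun j =>
    OPB_Wf hFL0 hGBD Γ hΓ _ r ψ (hej j) hψI
  have gR : ∀ j : ℤ, OPB_G Γ (fun g => 2 * ‖Wf (pk r (pc (b1 χ β ε j) α)) ψ g‖ ^ 2 +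
      2 * l ^ 2 * ‖Wf (pk r (ej χ β α ε j)) ψ g‖ ^ 2) := by
    intro j
    obtain ⟨a1, ⟨m, a2⟩, a3⟩ := gR1 j
    obtain ⟨b1', ⟨m', b2⟩, b3⟩ := gR2 j
    refine ⟨(a1.const_mul 2).add (b1'.const_mul (2 * l ^ 2)), ⟨2 * m + 2 * l ^ 2 * m', fun g => ?_⟩, fun γ g => ?_⟩
    · refine (norm_add_le _ _).trans (add_le_add ?_ ?_)
      · rw [norm_mul, Real.norm_of_nonneg (by norm_num : (0 : ℝ) ≤ 2)]
        exact mul_le_mul_of_nonneg_left (a2 g) (by norm_num)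
      · rw [norm_mul, Real.norm_of_nonneg (by positivity : (0 : ℝ) ≤ 2 * l ^ 2)]
        exact mul_le_mul_of_nonneg_left (b2 g) (by positivity)
    · have e1 := a3 γ g
      have e2 := b3 γ g
      beta_reduce at e1 e2 ⊢
      rw [e1, e2]
  have gS : ∀ j : ℤ, OPB_G Γ ({g' : SL(2, ℝ) | g' * nM (j * ε) ∉ Dp}.indicator
      (fun g' => ‖Wf (pk r (pc (bj χ β ε j) α)) ψ g'‖ ^ 2)) := fun j => hind _ _ (hDj j) (hDji j) (gP j)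
  -- the inequality for the segments
  have hseg : ∀ g : SL(2, ℝ), ∫ v in (0 : ℝ)..1, (B.indicator (fun g => ‖Wf (pk r (pc β α)) ψ g‖ ^ 2)) (g * lM (l * v)) ≤
      4 * Q * ∑ j ∈ J, (‖Wf (pk r (pc (bj χ β ε j) α)) ψ g‖ ^ 2 + ∫ u in (0 : ℝ)..1,
        (2 * ‖Wf (pk r (pc (b1 χ β ε j) α)) ψ (g * lM (l * u))‖ ^ 2 +
          2 * l ^ 2 * ‖Wf (pk r (ej χ β α ε j)) ψ (g * lM (l * u))‖ ^ 2)) +
        2 * (2 * J0 + 1) * ∑ j ∈ J, ∫ u in (0 : ℝ)..1, ({g' : SL(2, ℝ) | g' * nM (j * ε) ∉ Dp}.indicator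
          (fun g' => ‖Wf (pk r (pc (bj χ β ε j) α)) ψ g'‖ ^ 2)) (g * lM (l * u)) := by
    intro g
    rw [hB, hl, OPB_seg hGLC B1 hB1 _ ε r hε hrp g]
    exact hOPL Γ χ β α ε Q r J0 B1 Dp ψ g hΓ hχ hβS hαS hε hrp hJ0 hQ hB1 hDp hψI
      (fun J' a hJ' => hleaf l g _ J' a hlp.le hll0 hJ')
  have hmain := OPB_comb hGLC hGFD Γ F hΓ hF l (4 * Q) (2 * (2 * J0 + 1)) J _ _ _ _ gA gP gR gS hseg
  have hdG : MeasurableSet (dG F) := (hGFD Γ F hΓ hF).1.1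
  rw [setIntegral_indicator hBm] at hmain
  have hfin : mG (dG F) < ⊤ := (hGFD Γ F hΓ hF).1.2.2.1
  have hfin' : IsFiniteMeasure (mG.restrict (dG F)) := ⟨by rw [Measure.restrict_apply_univ]; exact hfin⟩
  have hint : ∀ w : SL(2, ℝ) → ℝ, OPB_G Γ w → Integrable w (mG.restrict (dG F)) := by
    intro w hw
    obtain ⟨h1, ⟨m, h2⟩, -⟩ := hw
    exact Integrable.of_bound h1.aestronglyMeasurable m (Filter.Eventually.of_forall h2)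
  have hR : ∀ j : ℤ, ∫ g in dG F, (2 * ‖Wf (pk r (pc (b1 χ β ε j) α)) ψ g‖ ^ 2 +
      2 * l ^ 2 * ‖Wf (pk r (ej χ β α ε j)) ψ g‖ ^ 2) ∂mG =
      2 * qn F (pc (b1 χ β ε j) α) r ψ + 2 * l ^ 2 * qn F (ej χ β α ε j) r ψ := by
    intro j
    rw [integral_add ((hint _ (gR1 j)).const_mul 2) ((hint _ (gR2 j)).const_mul (2 * l ^ 2)),
      integral_const_mul, integral_const_mul]
    rfl
  simp_rw [hR] at hmain
  have hS : ∀ j : ℤ, ∫ g in dG F, ({g' : SL(2, ℝ) | g' * nM (j * ε) ∉ Dp}.indicator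
      (fun g' => ‖Wf (pk r (pc (bj χ β ε j) α)) ψ g'‖ ^ 2)) g ∂mG =
      ∫ g in dG F ∩ {g' : SL(2, ℝ) | g' * nM (j * ε) ∉ Dp}, ‖Wf (pk r (pc (bj χ β ε j) α)) ψ g‖ ^ 2 ∂mG :=
    fun j => setIntegral_indicator (hDj j)
  simp_rw [hS] at hmain
  -- the tail
  have htail : ∀ j ∈ J, r ^ 2 * ∫ g in dG F ∩ {g' : SL(2, ℝ) | g' * nM (j * ε) ∉ Dp},
      ‖Wf (pk r (pc (bj χ β ε j) α)) ψ g‖ ^ 2 ∂mG ≤ Ct * iR F (fun g => ‖s g‖ ^ 2) := by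
    intro j hj
    rw [hCt]
    refine hTA Γ F β α (bj χ β ε j) α M0 M' T δ1 hΓ hF hM01 hM'1 (OPE_mono hM0β (by norm_num) le_rfl) (OPE_mono hM0α (by norm_num) le_rfl)
      (OPE_mono (hCBj j).1 (by norm_num) le_rfl) (OPE_mono hαM' (by norm_num) le_rfl) hT hδ1 r s _ hr1 hsm hsb hsi (hDj j) ?_
    intro g k w hg hsk hw hkw
    by_contra hcon
    rw [not_lt, hδ1def] at hcon
    have hgk : g * k ∈ D := hsD _ hsk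
    have hw' : st (-T) β w.re * α (Real.log w.im) ≠ 0 := by
      intro h0
      exact hw (show ((st (-T) β w.re * α (Real.log w.im) : ℝ) : ℂ) = 0 by rw [h0]; simp)
    have hkw' : bj χ β ε j (k • w).re * α (Real.log (k • w).im) ≠ 0 := by
      intro h0
      exact hkw (show ((bj χ β ε j (k • w).re * α (Real.log (k • w).im) : ℝ) : ℂ) = 0 by rw [h0]; simp)
    have h1 : |w.re| ≤ Real.exp (-T) / 4 := by
      have := hstB.1.2 w.re (left_ne_zero_of_mul hw')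
      linarith
    have h2 : |Real.log w.im| ≤ 1 / 4 := hαS.2 _ (right_ne_zero_of_mul hw')
    have h3 : |(k • w).re - j * ε| ≤ ε := hCs j _ (left_ne_zero_of_mul hkw')
    have h4 : |Real.log (k • w).im| ≤ 1 / 4 := hαS.2 _ (right_ne_zero_of_mul hkw')
    have hjJ : |j| ≤ (J0 : ℤ) := by
      rw [hJ, Finset.mem_Icc] at hj
      exact abs_le.2 hj
    exact hg (hloc j g k w hjJ hcon h1 h2 h3 h4 hgk)
  -- conclusion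
  have hcJ : ∑ j ∈ J, η1 ≤ 1 := by
    rw [Finset.sum_const, nsmul_eq_mul, hcard, hη1]
    exact OPE_n1 ρ K4 C M' J0 hρ1 hK4 hC1' hM'0 hM'ρ hJ00 hJρ (hL2.trans hLρ)
  have hbA : ∀ j : ℤ, r * qn F (pc (bj χ β ε j) α) r ψ ≤ ((∫ x, bj χ β ε j x ^ 2) + η1) * nn F ψ := by
    intro j
    have h := (hFR (bj χ β ε j) α M' (hCBj j).1 hαM' Γ F r hΓ hF hK4r).1 hα ψ hψI
    rw [hρ8, ← hη1] at h
    exact h
  have hbB : ∀ j : ℤ, r * qn F (pc (b1 χ β ε j) α) r ψ ≤ ((∫ x, b1 χ β ε j x ^ 2) + η1) * nn F ψ := by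
    intro j
    have h := (hFR (b1 χ β ε j) α M' (hCBj j).2 hαM' Γ F r hΓ hF hK4r).1 hα ψ hψI
    rw [hρ8, ← hη1] at h
    exact h
  refine OPB_num r Q (r ^ (-κ)) (2 * (2 * J0 + 1)) _ (∑ j ∈ J, qn F (pc (bj χ β ε j) α) r ψ) (∑ j ∈ J, qn F (pc (b1 χ β ε j) α) r ψ)
    (∑ j ∈ J, l ^ 2 * qn F (ej χ β α ε j) r ψ) (∑ j ∈ J, ∫ g in dG F ∩ {g' : SL(2, ℝ) | g' * nM (j * ε) ∉ Dp},
      ‖Wf (pk r (pc (bj χ β ε j) α)) ψ g‖ ^ 2 ∂mG) (nn F ψ) (iR F (fun g => ‖s g‖ ^ 2)) hrp hQ hV0 hrn ?_ ?_ ?_ ?_ ?_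
  · rw [Finset.mul_sum]
    calc ∑ j ∈ J, r * qn F (pc (bj χ β ε j) α) r ψ ≤ ∑ j ∈ J, ((∫ x, bj χ β ε j x ^ 2) + η1) * nn F ψ :=
          Finset.sum_le_sum (fun j _ => hbA j)
      _ = (∑ j ∈ J, (∫ x, bj χ β ε j x ^ 2) + ∑ j ∈ J, η1) * nn F ψ := by
          rw [← Finset.sum_add_distrib, Finset.sum_mul]
      _ ≤ 2 * nn F ψ := mul_le_mul_of_nonneg_right (by linarith) hn0
  · rw [Finset.mul_sum]
    calc ∑ j ∈ J, r * qn F (pc (b1 χ β ε j) α) r ψ ≤ ∑ j ∈ J, ((∫ x, b1 χ β ε j x ^ 2) + η1) * nn F ψ :=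
          Finset.sum_le_sum (fun j _ => hbB j)
      _ = (∑ j ∈ J, (∫ x, b1 χ β ε j x ^ 2) + ∑ j ∈ J, η1) * nn F ψ := by
          rw [← Finset.sum_add_distrib, Finset.sum_mul]
      _ ≤ 4 * nn F ψ := mul_le_mul_of_nonneg_right (by linarith) hn0
  · have hKb : r * (l ^ 2 * ((2 * (J0 : ℝ) + 1) * (K5 * (C2 / ε) ^ 2))) ≤ 1 :=
      OPE_n3 ρ r ε C2 K5 J0 hρ1 hρr hε hερ hK5 hJ00 hJρ (hL3.trans hLρ)
    calc r * ∑ j ∈ J, l ^ 2 * qn F (ej χ β α ε j) r ψ ≤ r * ∑ j ∈ J, l ^ 2 * (K5 * (C2 / ε) ^ 2 * nn F ψ) := by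
          refine mul_le_mul_of_nonneg_left (Finset.sum_le_sum (fun j _ => ?_)) hrp.le
          exact mul_le_mul_of_nonneg_left (hTR _ (C2 / ε) (hej j) (fun z => hEJ ε j z hε hε1) Γ F r ψ hΓ hF hψI) (by positivity)
      _ = r * (l ^ 2 * ((2 * (J0 : ℝ) + 1) * (K5 * (C2 / ε) ^ 2))) * nn F ψ := by
          rw [Finset.sum_const, nsmul_eq_mul, hcard]
          ring
      _ ≤ 1 * nn F ψ := mul_le_mul_of_nonneg_right hKb hn0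
      _ = nn F ψ := one_mul _
  · have hCb' : 2 * (2 * (J0 : ℝ) + 1) * ((2 * (J0 : ℝ) + 1) * Ct) ≤ r ^ (-κ) := by
      rw [hCt]
      exact (OPE_n4 ρ r δ1 C K6 M0 M' (Real.exp (3 * T)) J0 hρ1 hρr (hδ1def.trans hρ4) hK6 hC1' hM01 hM'0 hM'ρ (Real.exp_pos _).le hT3
        hJ00 hJρ (hL4.trans hLρ)).trans hηρ
    calc r ^ 2 * (2 * (2 * (J0 : ℝ) + 1) * ∑ j ∈ J, ∫ g in dG F ∩ {g' : SL(2, ℝ) | g' * nM (j * ε) ∉ Dp},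
          ‖Wf (pk r (pc (bj χ β ε j) α)) ψ g‖ ^ 2 ∂mG)
        = 2 * (2 * (J0 : ℝ) + 1) * ∑ j ∈ J, r ^ 2 * ∫ g in dG F ∩ {g' : SL(2, ℝ) | g' * nM (j * ε) ∉ Dp},
          ‖Wf (pk r (pc (bj χ β ε j) α)) ψ g‖ ^ 2 ∂mG := by
          rw [← Finset.mul_sum]; ring
      _ ≤ 2 * (2 * (J0 : ℝ) + 1) * ∑ j ∈ J, Ct * iR F (fun g => ‖s g‖ ^ 2) :=
          mul_le_mul_of_nonneg_left (Finset.sum_le_sum htail) (by positivity)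
      _ = 2 * (2 * (J0 : ℝ) + 1) * ((2 * (J0 : ℝ) + 1) * Ct) * iR F (fun g => ‖s g‖ ^ 2) := by
          rw [Finset.sum_const, nsmul_eq_mul, hcard]; ring
      _ ≤ r ^ (-κ) * iR F (fun g => ‖s g‖ ^ 2) := mul_le_mul_of_nonneg_right hCb' hV0
  · refine hmain.trans (le_of_eq ?_)
    congr 1
    congr 1
    rw [Finset.mul_sum, Finset.mul_sum, ← Finset.sum_add_distrib, ← Finset.sum_add_distrib]
    refine Finset.sum_congr rfl (fun j _ => ?_)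
    rw [mul_assoc 2 (l ^ 2)]
    rfl

/-- **Row OPE**. -/
theorem OPE_proof (hOCB : OCB_stmt) (hOEJ : OEJ_stmt) (hOTA : OTA_stmt) (hQTR : QTR_stmt) (hQFR : QFR_stmt) (hQST : QST_stmt)
    (hQFA : QFA_stmt) : OPE_stmt :=
  OPE_main HV.A_PUX HV.A_CLL HV.A_DVF HV.A_OPL MS.A_SYB MS.A_STB RS.A_CV1 RS.A_FL0 RS.A_GFD RS.A_GBD RS.A_GLC
    hOCB hOEJ hOTA hQTR hQFR hQST hQFA

end Pool.Agent.T1
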