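import Pool.Agent.helper47.T1.SpecE1
import Pool.Agent.helper24.MS.EQ3

/-!
# Row QE3 of project T1: stretching of packets, effective form (adaptation of EQ3 of helper24)
-/

set_option autoImplicit false

open scoped MatrixGroups ContDiff Topology UpperHalfPlane ComplexConjugate
open UpperHalfPlane MeasureTheory Filter Set

namespace Pool.Agent.T1

open Pool.Agent.RS Pool.Agent.MS

theorem QE3_mono {J : ℕ} {M M' : ℝ} {β : ℝ → ℝ} (h : SBM J M β) (hM : M ≤ M') : SBM J M' β :=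
  ⟨h.sb, fun j hj x => (h.bd j hj x).trans hM⟩

theorem QE3_nonneg {J : ℕ} {M : ℝ} {β : ℝ → ℝ} (h : SBM J M β) : 0 ≤ M :=
  (abs_nonneg _).trans (h.bd 0 (Nat.zero_le _) 0)

/-- the weighted triangle inequality -/
theorem QE3_tri (hGFD : GFD_stmt) (hGBD : GBD_stmt) (Γ : Subgroup SL(2, ℝ)) (F : Set ℍ)
    (hΓ : QU.SurfaceGroup Γ) (hF : QU.NiceDom Γ F) (x y z : SL(2, ℝ) → ℝ) (hx : InvG Γ x)
    (hy : InvG Γ y) (hz : InvG Γ z) (s : ℝ) (hs : 0 < s) :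
    iR F (fun g => (x g - z g) ^ 2) ≤
      (1 + 1 / s) * iR F (fun g => (x g - y g) ^ 2) + (1 + s) * iR F (fun g => (y g - z g) ^ 2) := by
  have h1 := EQ3_int hGFD hGBD Γ F hΓ hF _ (EQ3_inv Γ x z hx hz)
  have h2 := EQ3_int hGFD hGBD Γ F hΓ hF _ (EQ3_inv Γ x y hx hy)
  have h3 := EQ3_int hGFD hGBD Γ F hΓ hF _ (EQ3_inv Γ y z hy hz)
  unfold iR
  have h4 : ∫ g in dG F, (x g - z g) ^ 2 ∂mG ≤
      ∫ g in dG F, ((1 + 1 / s) * (x g - y g) ^ 2 + (1 + s) * (y g - z g) ^ 2) ∂mG := by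
    refine integral_mono h1 ((h2.const_mul (1 + 1 / s)).add (h3.const_mul (1 + s))) fun g => ?_
    show (x g - z g) ^ 2 ≤ (1 + 1 / s) * (x g - y g) ^ 2 + (1 + s) * (y g - z g) ^ 2
    have h5 : (1 + 1 / s) * (x g - y g) ^ 2 + (1 + s) * (y g - z g) ^ 2 - (x g - z g) ^ 2 =
        ((x g - y g) - s * (y g - z g)) ^ 2 / s := by
      field_simp
      ring
    have h6 : 0 ≤ ((x g - y g) - s * (y g - z g)) ^ 2 / s := by positivity
    linarith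
  rw [integral_add (h2.const_mul (1 + 1 / s)) (h3.const_mul (1 + s)), integral_const_mul,
    integral_const_mul] at h4
  exact h4

theorem QE3_proof (h1 : QE1_stmt) (h2 : QST_stmt) (hSTB : STB_stmt) (hEQ2 : EQ2_stmt) (hGLC : GLC_stmt)
    (hGFD : GFD_stmt) (hGBD : GBD_stmt) (hCV1 : CV1_stmt) (hFL0 : FL0_stmt) : QE3_stmt := by
  obtain ⟨K1, hK1, hQ⟩ := h1
  obtain ⟨hq1, hq2, -⟩ := h2
  obtain ⟨hs0, hss, -, -, hmono, -⟩ := hSTB
  have haM : ∀ s t, aM (s + t) = aM s * aM t := hGLC.2.2.2.2.2.2.2.2.2.2.1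
  have haM0 : aM 0 = 1 := by
    have h := haM 0 0
    rw [add_zero] at h
    exact (mul_eq_left.1 h.symm)
  refine ⟨64 * K1, by linarith, ?_⟩
  intro β α1 α2 M T hβM hα1M hα2M hβ hα1 hα2 hT Γ F r φ hΓ hF hKr hφ
  have hr1 : K1 ≤ r := by linarith
  have hr0 : 0 ≤ r := by linarith
  have hM0 : 0 ≤ M := QE3_nonneg hβM
  have hnn : 0 ≤ nn F φ := by
    unfold nn
    exact integral_nonneg fun z => by positivity
  have hrp : 0 ≤ r ^ (-(1 / 8) : ℝ) := Real.rpow_nonneg hr0 _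
  obtain ⟨E, hE⟩ : ∃ E : ℝ, E = K1 * (M * Real.exp (5 * T)) ^ 4 * r ^ (-(1 / 8) : ℝ) * nn F φ := ⟨_, rfl⟩
  have hE0 : 0 ≤ E := by
    rw [hE]
    positivity
  have hβS : SB (1 / 4) β := hβ.1
  have hα1S : SB (1 / 8) α1 := hα1.1
  have hα14 : SB (1 / 4) α1 := (hmono (1 / 8) (1 / 4) α1 (by norm_num)).1 hα1S
  have hα24 : SB (1 / 4) α2 := (hmono (1 / 8) (1 / 4) α2 (by norm_num)).1 hα2.1
  have hM1 : M ≤ M * Real.exp (5 * T) := by
    have h3 : 1 ≤ Real.exp (5 * T) := Real.one_le_exp (by linarith)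
    nlinarith
  have hst : ∀ o : ℝ, 0 ≤ o → SB (1 / 4) (st (-o) β) := fun o ho => (hq1 β M o hβM ho).1.sb
  have hstM : ∀ o : ℝ, 0 ≤ o → o ≤ T → SBM 4 (M * Real.exp (5 * T)) (st (-o) β) := by
    intro o ho hoT
    refine QE3_mono (hq1 β M o hβM ho).1 ?_
    exact mul_le_mul_of_nonneg_left (Real.exp_le_exp.2 (by linarith)) hM0
  have hInvC : InvC Γ φ := ⟨EQ3_cont 2 φ hφ.1, hφ.2.1⟩
  have hpf : ∀ (β' α' : ℝ → ℝ), SB (1 / 4) β' → SB (1 / 4) α' → InvG Γ (pf β' α' r φ) := by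
    intro β' α' h1 h2
    have h4 : TB (1 / 4) (pc β' α') := (hCV1.2.2 (1 / 4) α' β' h2 h1).1
    have h5 := hFL0.2.1 (1 / 4) r (pc β' α') h4
    exact hFL0.2.2 Γ (pk r (pc β' α')) φ (EQ3_cont _ _ h5.1) h5.2 hInvC
  have htr : ∀ (p : SL(2, ℝ) → ℂ) (h : SL(2, ℝ)), InvG Γ p → InvG Γ (fun g => ‖p (g * h)‖) := by
    intro p h hp
    exact ⟨(hp.1.comp (continuous_mul_const h)).norm, fun γ g => by
      show ‖p (γ * g * h)‖ = _
      rw [mul_assoc, hp.2 γ]⟩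
  have hno : ∀ (p : SL(2, ℝ) → ℂ), InvG Γ p → InvG Γ (fun g => ‖p g‖) := by
    intro p hp
    exact ⟨hp.1.norm, fun γ g => by
      show ‖p (γ * g)‖ = _
      rw [hp.2 γ]⟩
  -- one step
  have hstep : ∀ o δ : ℝ, 0 ≤ o → o ≤ T → 0 ≤ δ → δ ≤ 1 / 8 →
      r * iR F (fun g => (‖pf (st (-(o + δ)) β) α1 r φ (g * aM (o + δ))‖ -
          ‖pf (st (-o) β) α1 r φ (g * aM o)‖) ^ 2) ≤ E := by
    intro o δ ho hoT hδ hδ8
    obtain ⟨hshM, -⟩ := hq2 α1 M δ hα1M hα1 (by rw [abs_of_nonneg hδ]; exact hδ8)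
    have hsh : SB (1 / 4) (fun τ => α1 (τ - δ)) := hshM.sb
    have hie : ∫ x, (fun τ => α1 (τ - δ)) x = ∫ x, α1 x := integral_sub_right_eq_self α1 δ
    have hb := hQ (st (-o) β) (fun τ => α1 (τ - δ)) α1 (M * Real.exp (5 * T)) (hstM o ho hoT)
      (QE3_mono hshM hM1) (QE3_mono hα1M hM1) hie Γ F r φ hΓ hF hr1 hφ
    have hB : InvG Γ (pf (st (-o) β) α1 r φ) := hpf _ _ (hst o ho) hα14
    have hD : InvG Γ (pf (st (-o) β) (fun τ => α1 (τ - δ)) r φ) := hpf _ _ (hst o ho) hsh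
    have h2 := EQ3_nrm hGFD hGBD Γ F hΓ hF (pf (st (-o) β) (fun τ => α1 (τ - δ)) r φ)
      (pf (st (-o) β) α1 r φ) (aM o) hD hB
    have h3 : ∀ g : SL(2, ℝ), ‖pf (st (-(o + δ)) β) α1 r φ (g * aM (o + δ))‖ =
        ‖pf (st (-o) β) (fun τ => α1 (τ - δ)) r φ (g * aM o)‖ := by
      intro g
      have h4 := hEQ2 Γ (st (-(o + δ)) β) α1 δ r φ (g * aM o) hΓ (hst (o + δ) (by linarith)) hα14
        hInvC
      rw [hss, show δ + -(o + δ) = -o by ring] at h4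
      rw [haM, ← mul_assoc, h4, norm_mul, show (-((r * δ : ℝ) : ℂ) * Complex.I) =
        ((-(r * δ) : ℝ) : ℂ) * Complex.I by push_cast; ring, Complex.norm_exp_ofReal_mul_I, one_mul]
    have h5 : (fun g => (‖pf (st (-(o + δ)) β) α1 r φ (g * aM (o + δ))‖ -
        ‖pf (st (-o) β) α1 r φ (g * aM o)‖) ^ 2) =
        fun g => (‖pf (st (-o) β) (fun τ => α1 (τ - δ)) r φ (g * aM o)‖ -
        ‖pf (st (-o) β) α1 r φ (g * aM o)‖) ^ 2 := by
      funext g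
      rw [h3 g]
    rw [h5, hE]
    exact (mul_le_mul_of_nonneg_left h2 hr0).trans hb
  -- the number of steps
  obtain ⟨n, hn1, hn2⟩ : ∃ n : ℕ, 8 * T < n ∧ (n : ℝ) ≤ 8 * T + 1 := by
    refine ⟨⌊8 * T⌋₊ + 1, ?_, ?_⟩
    · push_cast
      exact Nat.lt_floor_add_one _
    · push_cast
      have := Nat.floor_le (show 0 ≤ 8 * T by linarith)
      linarith
  have hn0 : (0 : ℝ) < n := lt_of_le_of_lt (by linarith) hn1
  have hδ0 : 0 ≤ T / n := by positivity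
  have hδ8 : T / n ≤ 1 / 8 := by
    rw [div_le_iff₀ hn0]
    linarith
  have hall : ∀ k : ℕ, k ≤ n →
      r * iR F (fun g => (‖pf (st (-(k * (T / n))) β) α1 r φ (g * aM (k * (T / n)))‖ -
        ‖pf β α1 r φ g‖) ^ 2) ≤ ((k : ℝ) + 1) ^ 2 * E := by
    intro k
    induction k with
    | zero =>
      intro _
      have h1 : (fun g => (‖pf (st (-(((0 : ℕ) : ℝ) * (T / n))) β) α1 r φ
          (g * aM (((0 : ℕ) : ℝ) * (T / n)))‖ - ‖pf β α1 r φ g‖) ^ 2) = fun _ => (0 : ℝ) := by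
        funext g
        rw [Nat.cast_zero, zero_mul, neg_zero, hs0, haM0, mul_one, sub_self]
        norm_num
      rw [h1]
      unfold iR
      rw [integral_zero, mul_zero]
      positivity
    | succ k ih =>
      intro hk
      have hkn : (k : ℝ) * (T / n) ≤ T := by
        have h3 : (k : ℝ) ≤ n := by exact_mod_cast (Nat.le_of_succ_le hk)
        calc (k : ℝ) * (T / n) ≤ n * (T / n) := mul_le_mul_of_nonneg_right h3 hδ0
          _ = T := by field_simp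
      have ho : 0 ≤ (k : ℝ) * (T / n) := by positivity
      have h3 := hstep (k * (T / n)) (T / n) ho hkn hδ0 hδ8
      have h4 := ih (Nat.le_of_succ_le hk)
      have hA : InvG Γ (pf (st (-(k * (T / n) + T / n)) β) α1 r φ) :=
        hpf _ _ (hst _ (by linarith)) hα14
      have hB : InvG Γ (pf (st (-(k * (T / n))) β) α1 r φ) := hpf _ _ (hst _ ho) hα14
      have hC : InvG Γ (pf β α1 r φ) := hpf _ _ hβS hα14
      have hs : (0 : ℝ) < 1 / ((k : ℝ) + 1) := by positivity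
      have h5 := QE3_tri hGFD hGBD Γ F hΓ hF
        (fun g => ‖pf (st (-(k * (T / n) + T / n)) β) α1 r φ (g * aM (k * (T / n) + T / n))‖)
        (fun g => ‖pf (st (-(k * (T / n))) β) α1 r φ (g * aM (k * (T / n)))‖) (fun g => ‖pf β α1 r φ g‖)
        (htr _ _ hA) (htr _ _ hB) (hno _ hC) _ hs
      have h6 := mul_le_mul_of_nonneg_left h5 hr0
      have h7 : (((k + 1 : ℕ) : ℝ) * (T / n)) = k * (T / n) + T / n := by
        push_cast
        ring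
      rw [h7]
      have hk0 : (0 : ℝ) < (k : ℝ) + 1 := by positivity
      have e1 : 1 + 1 / (1 / ((k : ℝ) + 1)) = (k : ℝ) + 2 := by
        field_simp
        ring
      have e2 : 1 + 1 / ((k : ℝ) + 1) = ((k : ℝ) + 2) / ((k : ℝ) + 1) := by
        field_simp
        ring
      rw [e1, e2] at h6
      refine h6.trans ?_
      have h8 : ((k : ℝ) + 2) * (r * iR F (fun g => (‖pf (st (-(k * (T / n) + T / n)) β) α1 r φ (g * aM (k * (T / n) + T / n))‖ -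
          ‖pf (st (-(k * (T / n))) β) α1 r φ (g * aM (k * (T / n)))‖) ^ 2)) ≤ ((k : ℝ) + 2) * E :=
        mul_le_mul_of_nonneg_left h3 (by positivity)
      have h9 : ((k : ℝ) + 2) / ((k : ℝ) + 1) * (r * iR F (fun g => (‖pf (st (-(k * (T / n))) β) α1 r φ (g * aM (k * (T / n)))‖ -
          ‖pf β α1 r φ g‖) ^ 2)) ≤ ((k : ℝ) + 2) / ((k : ℝ) + 1) * (((k : ℝ) + 1) ^ 2 * E) :=
        mul_le_mul_of_nonneg_left h4 (by positivity)
      have e3 : ((k : ℝ) + 2) / ((k : ℝ) + 1) * (((k : ℝ) + 1) ^ 2 * E) = ((k : ℝ) + 2) * ((k : ℝ) + 1) * E := by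
        field_simp
      rw [e3] at h9
      have e4 : (((k + 1 : ℕ) : ℝ) + 1) ^ 2 * E = ((k : ℝ) + 2) * E + ((k : ℝ) + 2) * ((k : ℝ) + 1) * E := by
        push_cast
        ring
      rw [e4]
      calc _ = ((k : ℝ) + 2) * (r * iR F (fun g => (‖pf (st (-(k * (T / n) + T / n)) β) α1 r φ (g * aM (k * (T / n) + T / n))‖ -
          ‖pf (st (-(k * (T / n))) β) α1 r φ (g * aM (k * (T / n)))‖) ^ 2)) +
            ((k : ℝ) + 2) / ((k : ℝ) + 1) * (r * iR F (fun g => (‖pf (st (-(k * (T / n))) β) α1 r φ (g * aM (k * (T / n)))‖ -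
          ‖pf β α1 r φ g‖) ^ 2)) := by ring
        _ ≤ _ := add_le_add h8 h9
  have ha := hall n le_rfl
  have hie : ∫ x, α1 x = ∫ x, α2 x := by rw [hα1.2.2, hα2.2.2]
  have hb := hQ β α1 α2 (M * Real.exp (5 * T)) (QE3_mono hβM hM1) (QE3_mono hα1M hM1) (QE3_mono hα2M hM1) hie Γ F r φ hΓ hF hr1 hφ
  rw [← hE] at hb
  have hnT : (n : ℝ) * (T / n) = T := by field_simp
  rw [hnT] at ha
  have hA : InvG Γ (pf (st (-T) β) α1 r φ) := hpf _ _ (hst T hT) hα14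
  have hB : InvG Γ (pf β α1 r φ) := hpf _ _ hβS hα14
  have hC : InvG Γ (pf β α2 r φ) := hpf _ _ hβS hα24
  have hs : (0 : ℝ) < (n : ℝ) + 1 := by positivity
  have h3 := QE3_tri hGFD hGBD Γ F hΓ hF
    (fun g => ‖pf (st (-T) β) α1 r φ (g * aM T)‖)
    (fun g => ‖pf β α1 r φ g‖) (fun g => ‖pf β α2 r φ g‖)
    (htr _ _ hA) (hno _ hB) (hno _ hC) _ hs
  have h4 := EQ3_nrm hGFD hGBD Γ F hΓ hF (pf β α1 r φ) (pf β α2 r φ) 1 hB hC
  simp only [mul_one] at h4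
  have h5 := mul_le_mul_of_nonneg_left h3 hr0
  have h6 := (mul_le_mul_of_nonneg_left h4 hr0).trans hb
  have h7 : (1 + 1 / ((n : ℝ) + 1)) * (r * iR F (fun g => (‖pf (st (-T) β) α1 r φ (g * aM T)‖ - ‖pf β α1 r φ g‖) ^ 2)) ≤
      (1 + 1 / ((n : ℝ) + 1)) * (((n : ℝ) + 1) ^ 2 * E) := mul_le_mul_of_nonneg_left ha (by positivity)
  have h8 : (1 + ((n : ℝ) + 1)) * (r * iR F (fun g => (‖pf β α1 r φ g‖ - ‖pf β α2 r φ g‖) ^ 2)) ≤ (1 + ((n : ℝ) + 1)) * E :=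
    mul_le_mul_of_nonneg_left h6 (by positivity)
  have e1 : (1 + 1 / ((n : ℝ) + 1)) * (((n : ℝ) + 1) ^ 2 * E) + (1 + ((n : ℝ) + 1)) * E = ((n : ℝ) + 2) ^ 2 * E := by
    field_simp
    ring
  have h9 : r * iR F (fun g => (‖pf (st (-T) β) α1 r φ (g * aM T)‖ - ‖pf β α2 r φ g‖) ^ 2) ≤ ((n : ℝ) + 2) ^ 2 * E := by
    rw [← e1]
    refine h5.trans ?_
    calc _ = (1 + 1 / ((n : ℝ) + 1)) * (r * iR F (fun g => (‖pf (st (-T) β) α1 r φ (g * aM T)‖ - ‖pf β α1 r φ g‖) ^ 2)) +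
          (1 + ((n : ℝ) + 1)) * (r * iR F (fun g => (‖pf β α1 r φ g‖ - ‖pf β α2 r φ g‖) ^ 2)) := by ring
      _ ≤ _ := add_le_add h7 h8
  have h10 : ((n : ℝ) + 2) ^ 2 ≤ 64 * (1 + T) ^ 2 := by
    have h11 : (n : ℝ) + 2 ≤ 8 * (1 + T) := by linarith
    calc ((n : ℝ) + 2) ^ 2 ≤ (8 * (1 + T)) ^ 2 := pow_le_pow_left₀ (by positivity) h11 2
      _ = 64 * (1 + T) ^ 2 := by ring
  have e2 : 64 * K1 * M ^ 4 * (1 + T) ^ 2 * Real.exp (20 * T) * r ^ (-(1 / 8) : ℝ) * nn F φ = 64 * (1 + T) ^ 2 * E := by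
    have e3 : Real.exp (20 * T) = Real.exp (5 * T) ^ 4 := by
      rw [← Real.exp_nat_mul]
      congr 1
      push_cast
      ring
    rw [hE, e3]
    ring
  rw [e2]
  exact h9.trans (mul_le_mul_of_nonneg_right h10 hE0)

end Pool.Agent.T1
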